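import Pool.Agent.H240R3.WT.Stmts

set_option autoImplicit false

/-! Project WT, task A (helper115): first moment. -/

namespace Pool.Agent.H115R3.WT
open Finset
open scoped Classical

lemma pair_aux {V : Type} [Fintype V] (z : V → ℝ) (hz1 : ∑ v, z v = 1) {N : ℕ} (i j : Fin N)
    (hij : i ≠ j) (u v : V) :
    ∑ φ : Fin N → V, (∏ k, z (φ k)) * ((if φ i = u then (1 : ℝ) else 0) * (if φ j = v then 1 else 0)) =
      z u * z v := by
  set g : Fin N → V → ℝ := fun k w =>
    z w * (if k = i then (if w = u then 1 else 0) else if k = j then (if w = v then 1 else 0) else 1)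
    with hg
  have h1 : ∀ φ : Fin N → V, (∏ k, z (φ k)) * ((if φ i = u then (1 : ℝ) else 0) *
      (if φ j = v then 1 else 0)) = ∏ k, g k (φ k) := by
    intro φ
    simp only [hg]
    rw [prod_mul_distrib]
    congr 1
    rw [Finset.prod_eq_mul i j hij]
    · simp [hij.symm]
    · rintro c - ⟨hc1, hc2⟩
      simp [hc1, hc2]
    · intro h; exact absurd (mem_univ _) h
    · intro h; exact absurd (mem_univ _) h
  rw [sum_congr rfl fun φ _ => h1 φ]
  have h2 := (Finset.prod_univ_sum (fun _ : Fin N => (univ : Finset V)) g).symm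
  rw [Fintype.piFinset_univ] at h2
  rw [h2, Finset.prod_eq_mul i j hij]
  · simp [hg, hij.symm]
  · rintro c - ⟨hc1, hc2⟩
    simp [hg, hc1, hc2, hz1]
  · intro h; exact absurd (mem_univ _) h
  · intro h; exact absurd (mem_univ _) h

lemma pair {V : Type} [Fintype V] (W : V → V → ℝ) (z : V → ℝ) (hz1 : ∑ v, z v = 1) {N : ℕ}
    (i j : Fin N) (hij : i ≠ j) :
    ∑ φ : Fin N → V, (∏ k, z (φ k)) * W (φ i) (φ j) = ∑ u, ∑ v, z u * z v * W u v := by
  have h1 : ∀ φ : Fin N → V, (∏ k, z (φ k)) * W (φ i) (φ j) = ∑ u, ∑ v, W u v *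
      ((∏ k, z (φ k)) * ((if φ i = u then (1 : ℝ) else 0) * (if φ j = v then 1 else 0))) := by
    intro φ
    have h2 : W (φ i) (φ j) = ∑ u, ∑ v, W u v * ((if φ i = u then (1 : ℝ) else 0) *
        (if φ j = v then 1 else 0)) := by
      simp [mul_ite]
    rw [h2, mul_sum]
    refine sum_congr rfl fun u _ => ?_
    rw [mul_sum]
    exact sum_congr rfl fun v _ => by ring
  rw [sum_congr rfl fun φ _ => h1 φ, sum_comm]
  refine sum_congr rfl fun u _ => ?_
  rw [sum_comm]
  refine sum_congr rfl fun v _ => ?_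
  rw [← mul_sum, pair_aux z hz1 i j hij u v]
  ring

theorem taskA : Pool.Agent.H240R3.WT.TaskA := by
  intro V _ W z hz0 hz1 N
  set S : ℝ := ∑ u, ∑ v, z u * z v * W u v with hS
  have hP : ∑ φ : Fin N → V, ∏ k, z (φ k) = 1 := by
    have h2 := (Finset.prod_univ_sum (fun _ : Fin N => (univ : Finset V)) (fun _ => z)).symm
    rw [Fintype.piFinset_univ] at h2
    rw [h2]
    simp [hz1]
  have hE : ∑ φ : Fin N → V, (∏ k, z (φ k)) * (∑ i, ∑ j, (if i = j then 0 else W (φ i) (φ j))) =
      (N : ℝ) * (N - 1) * S := by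
    have h1 : ∀ φ : Fin N → V, (∏ k, z (φ k)) * (∑ i, ∑ j, (if i = j then 0 else W (φ i) (φ j))) =
        ∑ i, ∑ j, (if i = j then 0 else (∏ k, z (φ k)) * W (φ i) (φ j)) := by
      intro φ
      rw [mul_sum]
      refine sum_congr rfl fun i _ => ?_
      rw [mul_sum]
      refine sum_congr rfl fun j _ => ?_
      split_ifs <;> simp
    rw [sum_congr rfl fun φ _ => h1 φ, sum_comm]
    have h2 : ∀ i : Fin N, ∑ φ : Fin N → V, ∑ j, (if i = j then 0 else (∏ k, z (φ k)) * W (φ i) (φ j)) =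
        (N - 1) * S := by
      intro i
      rw [sum_comm]
      have h3 : ∀ j : Fin N, ∑ φ : Fin N → V, (if i = j then 0 else (∏ k, z (φ k)) * W (φ i) (φ j)) =
          S - (if i = j then S else 0) := by
        intro j
        by_cases hij : i = j
        · simp [hij]
        · simp only [hij, if_false, sub_zero]
          exact pair W z hz1 i j hij
      rw [sum_congr rfl fun j _ => h3 j, sum_sub_distrib]
      simp
      ring
    rw [sum_congr rfl fun i _ => h2 i]
    simp
    ring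
  by_contra hcon
  push Not at hcon
  have h0 : ∑ φ : Fin N → V, (∏ k, z (φ k)) * ((N : ℝ) * (N - 1) * S -
      (∑ i, ∑ j, (if i = j then 0 else W (φ i) (φ j)))) = 0 := by
    simp only [mul_sub]
    rw [sum_sub_distrib, hE, ← sum_mul, hP]
    ring
  have hnn : ∀ φ ∈ (univ : Finset (Fin N → V)), 0 ≤ (∏ k, z (φ k)) * ((N : ℝ) * (N - 1) * S -
      (∑ i, ∑ j, (if i = j then 0 else W (φ i) (φ j)))) := by
    intro φ _
    exact mul_nonneg (prod_nonneg fun k _ => hz0 _) (sub_nonneg.2 (hcon φ).le)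
  have h3 := (sum_eq_zero_iff_of_nonneg hnn).1 h0
  have h4 : ∀ φ : Fin N → V, ∏ k, z (φ k) = 0 := by
    intro φ
    rcases mul_eq_zero.1 (h3 φ (mem_univ φ)) with h | h
    · exact h
    · exact absurd h (sub_pos.2 (hcon φ)).ne'
  rw [sum_congr rfl fun φ _ => h4 φ] at hP
  simp at hP

end Pool.Agent.H115R3.WT
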